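import Mathlib

set_option autoImplicit false
open Filter

namespace Pool.Agent.LacF

/-- the sequence `2^(n/J) * (J + n % J)`, i.e. all numbers `2^k m` with `J ≤ m < 2J` -/
def tt (J n : ℕ) : ℕ := 2 ^ (n / J) * (J + n % J)

theorem tt_block (J k m : ℕ) (hm : m < J) : tt J (J * k + m) = 2 ^ k * (J + m) := by
  have hJ : 0 < J := by omega
  have h1 : (J * k + m) / J = k := by
    rw [Nat.mul_add_div hJ, Nat.div_eq_of_lt hm, add_zero]
  have h2 : (J * k + m) % J = m := by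
    rw [Nat.mul_add_mod, Nat.mod_eq_of_lt hm]
  unfold tt
  rw [h1, h2]

theorem tt_succ (J n : ℕ) (hJ : 0 < J) : tt J (n + 1) = tt J n + 2 ^ (n / J) := by
  obtain ⟨k, m, hm, rfl⟩ : ∃ k m, m < J ∧ n = J * k + m :=
    ⟨n / J, n % J, Nat.mod_lt _ hJ, (Nat.div_add_mod n J).symm⟩
  have h1 : (J * k + m) / J = k := by
    rw [Nat.mul_add_div hJ, Nat.div_eq_of_lt hm, add_zero]
  rw [tt_block J k m hm, h1]
  rcases Nat.lt_or_ge (m + 1) J with h | h
  · rw [add_assoc, tt_block J k (m + 1) h]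
    ring
  · have hmJ : m + 1 = J := by omega
    have : J * k + m + 1 = J * (k + 1) + 0 := by
      rw [add_assoc, hmJ]; ring
    rw [this, tt_block J (k + 1) 0 hJ, ← hmJ]
    ring

theorem tt_lt (J n : ℕ) (hJ : 0 < J) : tt J n < 2 ^ (n / J) * (2 * J) := by
  unfold tt
  have := Nat.mod_lt n hJ
  exact Nat.mul_lt_mul_of_pos_left (by omega) (by positivity)

theorem tt_pos (J n : ℕ) (hJ : 0 < J) : 0 < tt J n := by
  unfold tt
  positivity

theorem floor_step {ε τ a : ℝ} (hτ : |τ| < ε) (h1 : Int.fract a < 1 - ε) (h2 : Int.fract (a + τ) < 1 - ε) :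
    ⌊a + τ⌋ = ⌊a⌋ := by
  have e1 := Int.floor_add_fract a
  have e2 := Int.floor_add_fract (a + τ)
  have p1 := Int.fract_nonneg a
  have p2 := Int.fract_nonneg (a + τ)
  obtain ⟨t1, t2⟩ := abs_lt.1 hτ
  have h3 : (⌊a + τ⌋ : ℝ) < ⌊a⌋ + 1 := by linarith
  have h4 : (⌊a⌋ : ℝ) < ⌊a + τ⌋ + 1 := by linarith
  have h3' : ⌊a + τ⌋ < ⌊a⌋ + 1 := by exact_mod_cast h3
  have h4' : ⌊a⌋ < ⌊a + τ⌋ + 1 := by exact_mod_cast h4
  omega

theorem keyA {ε x : ℝ} (Q L : ℕ) (hQ : 0 < Q) (hQε : 1 / ((Q : ℝ) + 1) < ε) (hL : L = 4 * Q.factorial)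
    (h : ∀ m : ℕ, m < Q * L + 1 → Int.fract (x * (((Q * L + 1 : ℕ) : ℝ) + m)) < 1 - ε) :
    ∃ z : ℤ, |(Q.factorial : ℝ) * x - z| < 1 / 4 := by
  obtain ⟨q, hq0, hqQ, hq⟩ := Real.exists_nat_abs_mul_sub_round_le x hQ
  set p : ℤ := round ((q : ℝ) * x) with hp
  set τ : ℝ := (q : ℝ) * x - p with hτ
  have hτε : |τ| < ε := lt_of_le_of_lt hq hQε
  set J : ℕ := Q * L + 1 with hJ
  have hfr : ∀ i : ℕ, i ≤ L → Int.fract (x * J + i * τ) < 1 - ε := by
    intro i hi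
    have hm : i * q < J := by
      have : i * q ≤ L * Q := Nat.mul_le_mul hi hqQ
      rw [hJ]; nlinarith
    have := h (i * q) hm
    have e : x * ((J : ℝ) + ((i * q : ℕ) : ℝ)) = (x * J + i * τ) + ((i * p : ℤ) : ℝ) := by
      rw [hτ]; push_cast; ring
    rw [e, Int.fract_add_intCast] at this
    exact this
  have hfl : ∀ i : ℕ, i ≤ L → ⌊x * J + i * τ⌋ = ⌊x * J⌋ := by
    intro i
    induction i with
    | zero => intro _; simp
    | succ i ih =>
      intro hi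
      rw [← ih (by omega)]
      have e : x * J + ((i + 1 : ℕ) : ℝ) * τ = (x * J + i * τ) + τ := by push_cast; ring
      rw [e]
      apply floor_step hτε (hfr i (by omega))
      rw [← e]
      exact hfr (i + 1) hi
  have hLτ : |(L : ℝ) * τ| < 1 := by
    have h1 := hfl L le_rfl
    have e1 := Int.floor_add_fract (x * J + L * τ)
    have e2 := Int.floor_add_fract (x * J)
    rw [h1] at e1
    have p1 := Int.fract_nonneg (x * J + L * τ)
    have p2 := Int.fract_nonneg (x * J)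
    have p3 := Int.fract_lt_one (x * J + L * τ)
    have p4 := Int.fract_lt_one (x * J)
    rw [abs_lt]
    constructor <;> linarith
  obtain ⟨r, hr⟩ : q ∣ Q.factorial := Nat.dvd_factorial hq0 hqQ
  have hr0 : 0 < r := by
    rcases Nat.eq_zero_or_pos r with h0 | h0
    · rw [h0, mul_zero] at hr
      exact absurd hr (Nat.factorial_ne_zero Q)
    · exact h0
  refine ⟨r * p, ?_⟩
  have e : (Q.factorial : ℝ) * x - ((r * p : ℤ) : ℝ) = r * τ := by
    rw [hr, hτ]; push_cast; ring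
  rw [e]
  have hrQ : (r : ℝ) ≤ Q.factorial := by
    have : r ≤ Q.factorial := by rw [hr]; exact Nat.le_mul_of_pos_left r hq0
    exact_mod_cast this
  rw [abs_mul] at hLτ ⊢
  have hLv : (L : ℝ) = 4 * Q.factorial := by rw [hL]; push_cast; ring
  rw [abs_of_nonneg (by positivity : (0 : ℝ) ≤ L), hLv] at hLτ
  rw [abs_of_nonneg (by positivity : (0 : ℝ) ≤ r)]
  have : (r : ℝ) * |τ| ≤ Q.factorial * |τ| := mul_le_mul_of_nonneg_right hrQ (abs_nonneg _)
  linarith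

theorem keyB {y : ℝ} (h : ∀ k : ℕ, ∃ z : ℤ, |2 ^ k * y - z| < 1 / 4) : ∃ z : ℤ, y = z := by
  obtain ⟨z0, hz0⟩ := h 0
  rw [pow_zero, one_mul] at hz0
  have key : ∀ k : ℕ, |2 ^ k * (y - z0)| < 1 / 4 := by
    intro k
    induction k with
    | zero => simpa using hz0
    | succ k ih =>
      obtain ⟨z, hz⟩ := h (k + 1)
      obtain ⟨a1, a2⟩ := abs_lt.1 ih
      obtain ⟨b1, b2⟩ := abs_lt.1 hz
      have e : (2 : ℝ) ^ (k + 1) * (y - z0) = 2 * (2 ^ k * (y - z0)) := by ring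
      have e2 : (2 : ℝ) ^ (k + 1) * (y - z0) = (2 ^ (k + 1) * y - z) + ((z - 2 ^ (k + 1) * z0 : ℤ) : ℝ) := by
        push_cast; ring
      have hzz : z - 2 ^ (k + 1) * z0 = 0 := by
        have c1 : ((z - 2 ^ (k + 1) * z0 : ℤ) : ℝ) < 1 := by linarith
        have c2 : (-1 : ℝ) < ((z - 2 ^ (k + 1) * z0 : ℤ) : ℝ) := by linarith
        have c1' : z - 2 ^ (k + 1) * z0 < 1 := by exact_mod_cast c1
        have c2' : -1 < z - 2 ^ (k + 1) * z0 := by exact_mod_cast c2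
        omega
      rw [e2, hzz, Int.cast_zero, add_zero]
      exact hz
  refine ⟨z0, ?_⟩
  by_contra hne
  have hpos : 0 < |y - z0| := abs_pos.2 (sub_ne_zero.2 hne)
  obtain ⟨k, hk⟩ := exists_nat_gt (1 / |y - z0|)
  have h2 := key k
  rw [abs_mul, abs_of_pos (by positivity : (0 : ℝ) < 2 ^ k)] at h2
  have h3 : (k : ℝ) < 2 ^ k := by exact_mod_cast Nat.lt_two_pow_self
  have h4 : 1 < (k : ℝ) * |y - z0| := by
    rw [div_lt_iff₀ hpos] at hk
    exact hk
  have h5 : (k : ℝ) * |y - z0| ≤ 2 ^ k * |y - z0| := mul_le_mul_of_nonneg_right h3.le hpos.le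
  linarith

theorem main :
    ∀ (K : IntermediateField ℚ ℝ) [FiniteDimensional ℚ K] {ε : ℝ} (hε : 0 < ε), ∃ t : ℕ → K, (∀ n, 0 < (t n : ℝ)) ∧ (∃ c > (1 : ℝ), ∀ᶠ k in atTop, c * (t k : ℝ) < (t (k + 1) : ℝ)) ∧ ∀ ξ : ℝ, ξ ∉ K → (1 - ε) ≤ limsup (fun n => Int.fract (ξ * (t n : ℝ))) atTop := by
  intro K _ ε hε
  obtain ⟨Q0, hQ0⟩ := exists_nat_gt (1 / ε)
  set Q : ℕ := Q0 + 1 with hQdef
  have hQ : 0 < Q := by omega
  have hQε : 1 / ((Q : ℝ) + 1) < ε := by
    have hQ1 : (1 / ε) < (Q : ℝ) + 1 := by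
      rw [hQdef]; push_cast; linarith
    have hpos : (0 : ℝ) < (Q : ℝ) + 1 := by positivity
    rw [div_lt_iff₀ hε] at hQ1
    rw [div_lt_iff₀ hpos]
    linarith
  set L : ℕ := 4 * Q.factorial with hL
  set J : ℕ := Q * L + 1 with hJ
  have hJ0 : 0 < J := by omega
  refine ⟨fun n => ((tt J n : ℕ) : K), ?_, ⟨1 + 1 / (2 * J), ?_, ?_⟩, ?_⟩
  · intro n
    have : (0 : ℝ) < (tt J n : ℝ) := by exact_mod_cast tt_pos J n hJ0
    simpa using this
  · have : (0 : ℝ) < 1 / (2 * J) := by positivity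
    linarith
  · refine Eventually.of_forall fun n => ?_
    have h1 : (tt J (n + 1) : ℝ) = tt J n + 2 ^ (n / J) := by exact_mod_cast tt_succ J n hJ0
    have h2 : (tt J n : ℝ) < 2 ^ (n / J) * (2 * J) := by exact_mod_cast tt_lt J n hJ0
    have hJr : (0 : ℝ) < 2 * J := by positivity
    have h3 : (1 / (2 * J) : ℝ) * tt J n < 2 ^ (n / J) := by
      rw [one_div, inv_mul_lt_iff₀ hJr]
      linarith
    have : (1 + 1 / (2 * (J : ℝ))) * (tt J n : ℝ) < (tt J (n + 1) : ℝ) := by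
      rw [h1]; linarith
    simpa using this
  · intro ξ hξ
    by_contra hlt
    rw [not_le] at hlt
    have hev : ∀ᶠ n in atTop, Int.fract (ξ * ((((tt J n : ℕ) : K)) : ℝ)) < 1 - ε := by
      refine eventually_lt_of_limsup_lt hlt ?_
      refine ⟨1, ?_⟩
      rw [eventually_map]
      exact Eventually.of_forall fun n => (Int.fract_lt_one _).le
    obtain ⟨n0, hn0⟩ := eventually_atTop.1 hev
    have hk : ∀ k : ℕ, ∃ z : ℤ, |2 ^ k * ((Q.factorial : ℝ) * (2 ^ n0 * ξ)) - z| < 1 / 4 := by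
      intro k
      have := keyA (ε := ε) (x := 2 ^ (k + n0) * ξ) Q L hQ hQε hL (by
        intro m hm
        have h1 := hn0 (J * (k + n0) + m) (by nlinarith)
        rw [tt_block J (k + n0) m hm] at h1
        have e : ξ * ((((2 ^ (k + n0) * (J + m) : ℕ) : K)) : ℝ) = 2 ^ (k + n0) * ξ * ((J : ℝ) + m) := by
          have e0 : ∀ N : ℕ, (((N : ℕ) : K) : ℝ) = (N : ℝ) := fun N => by simp
          rw [e0]
          push_cast; ring
        rw [e] at h1
        exact h1)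
      obtain ⟨z, hz⟩ := this
      refine ⟨z, ?_⟩
      have e : (2 : ℝ) ^ k * ((Q.factorial : ℝ) * (2 ^ n0 * ξ)) = (Q.factorial : ℝ) * (2 ^ (k + n0) * ξ) := by
        rw [pow_add]; ring
      rw [e]; exact hz
    obtain ⟨z, hz⟩ := keyB hk
    apply hξ
    have hne : (Q.factorial : ℝ) * 2 ^ n0 ≠ 0 := by positivity
    have : ξ = algebraMap ℚ ℝ ((z : ℚ) / ((Q.factorial : ℚ) * 2 ^ n0)) := by
      rw [eq_ratCast]
      push_cast
      rw [eq_div_iff hne, ← hz]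
      ring
    rw [this]
    exact K.algebraMap_mem _

end Pool.Agent.LacF
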